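import Pool.Agent.TH179.SD.FinG

/-!
# A closed simply connected almost complex 8-manifold with a class of nonzero fourth power and
# without symplectic structure

The manifold is `M = (S³ × S⁵) # (CP⁴ with the opposite orientation)`, of real dimension `8`.
The definitions (differential forms, almost complex structures on a smooth manifold) are in
`Pool/Agent/TH179/SD/Gen.lean`. The proof was formalised by helper179 with helpers 11, 50, 55, 124,
159, 225, 306, 348, 365, 615, 656, 713, 720, 790, 828, 874, 886, 902, 921, 940, 959, 964, 989.
-/

open scoped ContDiff Manifold
open Pool.Agent.TH179.SDGen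

namespace Pool.Agent.Results.MP_2a78db_gt.OrientationMismatch

theorem result :
    ∃ (E : Type) (_ : NormedAddCommGroup E) (_ : NormedSpace ℝ E)
      (M : Type) (_ : TopologicalSpace M) (_ : ChartedSpace E M),
      -- a closed smooth manifold of dimension eight, simply connected (in particular connected)
      IsClosedManifold E M 8 ∧ SimplyConnectedSpace M ∧
      -- almost complex
      Nonempty (AlmostComplex E M) ∧
      -- a class `a` in the second de Rham cohomology with `a⁴ ≠ 0`
      (∃ α : DiffForm E M 2, α.Closed ∧ ¬ α.FourthPowerExact) ∧
      -- no symplectic structure
      ¬ ∃ w : DiffForm E M 2, w.Closed ∧ w.Nondegenerate :=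
  res2

end Pool.Agent.Results.MP_2a78db_gt.OrientationMismatch
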